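import Pool.Agent.helper47.Vis.Rows

set_option autoImplicit false

/-! MP_6b3417_co, part II, module P2: `pos_le`, `pos_odd`, `row_mono`. -/

namespace Pool.Agent.helper40.Vis

open Pool.Agent.helper47.Vis

lemma finA (n : ℕ) (p : ℕ → Prop) : {m : ℕ | m < n ∧ p m}.Finite :=
  (Set.finite_lt_nat n).subset (fun _ h => h.1)

theorem pos_le (n : ℕ) (u : ℕ → ℝ) (y : ℝ) (_hu : ∀ j k, j < k → k < n → u j < u k) :
    pos n u y ≤ 2 * n := by
  have hdisj : Disjoint {m : ℕ | m < n ∧ u m < y} {m : ℕ | m < n ∧ u m = y} := by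
    rw [Set.disjoint_left]
    rintro m ⟨_, h1⟩ ⟨_, h2⟩
    linarith
  have h := Set.ncard_union_eq hdisj (finA n _) (finA n _)
  have hsub : {m : ℕ | m < n ∧ u m < y} ∪ {m : ℕ | m < n ∧ u m = y} ⊆ Set.Iio n := by
    rintro m (⟨h1, _⟩ | ⟨h1, _⟩) <;> exact h1
  have h2 := Set.ncard_le_ncard hsub (Set.finite_Iio n)
  rw [h] at h2
  have h3 : (Set.Iio n).ncard = n := by
    rw [← Finset.coe_range, Set.ncard_coe_finset, Finset.card_range]
  rw [h3] at h2
  unfold pos
  omega

theorem pos_odd (n : ℕ) (u : ℕ → ℝ) (y : ℝ) (hu : ∀ j k, j < k → k < n → u j < u k) (m : ℕ)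
    (h : pos n u y = 2 * m + 1) : m < n ∧ u m = y := by
  unfold pos at h
  have hne : {m : ℕ | m < n ∧ u m = y}.ncard ≠ 0 := by omega
  obtain ⟨m', hm'⟩ := Set.nonempty_of_ncard_ne_zero hne
  have hB : {m : ℕ | m < n ∧ u m = y} = {m'} := by
    ext j
    simp only [Set.mem_setOf_eq, Set.mem_singleton_iff]
    constructor
    · rintro ⟨hj, hj2⟩
      rcases lt_trichotomy j m' with hlt | heq | hgt
      · have := hu j m' hlt hm'.1
        rw [hj2, hm'.2] at this
        exact absurd this (lt_irrefl _)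
      · exact heq
      · have := hu m' j hgt hj
        rw [hj2, hm'.2] at this
        exact absurd this (lt_irrefl _)
    · rintro rfl
      exact hm'
  have hA : {m : ℕ | m < n ∧ u m < y} = Set.Iio m' := by
    ext j
    simp only [Set.mem_setOf_eq, Set.mem_Iio]
    constructor
    · rintro ⟨hj, hj2⟩
      by_contra hcon
      push Not at hcon
      rcases lt_or_eq_of_le hcon with hlt | heq
      · have := hu m' j hlt hj
        rw [hm'.2] at this
        linarith
      · subst heq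
        rw [hm'.2] at hj2
        exact lt_irrefl _ hj2
    · intro hj
      exact ⟨lt_trans hj hm'.1, by have := hu j m' hj hm'.1; rwa [hm'.2] at this⟩
  have h3 : (Set.Iio m').ncard = m' := by
    rw [← Finset.coe_range, Set.ncard_coe_finset, Finset.card_range]
  rw [hB, hA, h3, Set.ncard_singleton] at h
  have : m' = m := by omega
  subst this
  exact hm'

/-- If the position does not increase, then both positions are even, i.e. neither `y` nor `y'`
belongs to the sequence. -/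
lemma pos_eq_of_le (n : ℕ) (u : ℕ → ℝ) (y y' : ℝ) (hy : y < y')
    (h : ¬ pos n u y + 1 ≤ pos n u y') :
    (∀ m, m < n → u m ≠ y) ∧ (∀ m, m < n → u m ≠ y') := by
  have hdisj : Disjoint {m : ℕ | m < n ∧ u m < y} {m : ℕ | m < n ∧ u m = y} := by
    rw [Set.disjoint_left]
    rintro m ⟨_, h1⟩ ⟨_, h2⟩
    linarith
  have h1 := Set.ncard_union_eq hdisj (finA n _) (finA n _)
  have hsub : {m : ℕ | m < n ∧ u m < y} ∪ {m : ℕ | m < n ∧ u m = y} ⊆
      {m : ℕ | m < n ∧ u m < y'} := by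
    rintro m (⟨h1, h2⟩ | ⟨h1, h2⟩)
    · exact ⟨h1, by linarith⟩
    · exact ⟨h1, by linarith⟩
  have h2 := Set.ncard_le_ncard hsub (finA n _)
  rw [h1] at h2
  unfold pos at h
  have hB : {m : ℕ | m < n ∧ u m = y}.ncard = 0 := by omega
  have hB' : {m : ℕ | m < n ∧ u m = y'}.ncard = 0 := by omega
  rw [Set.ncard_eq_zero (finA n _)] at hB hB'
  constructor
  · intro m hm hm2
    have : m ∈ {m : ℕ | m < n ∧ u m = y} := ⟨hm, hm2⟩
    rw [hB] at this
    exact this
  · intro m hm hm2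
    have : m ∈ {m : ℕ | m < n ∧ u m = y'} := ⟨hm, hm2⟩
    rw [hB'] at this
    exact this

lemma seg_param {p q r : ℝ × ℝ} (h : r ∈ openSegment ℝ p q) :
    ∃ t : ℝ, 0 < t ∧ t < 1 ∧ r.1 = (1 - t) * p.1 + t * q.1 ∧ r.2 = (1 - t) * p.2 + t * q.2 := by
  obtain ⟨s, t, hs, ht, hst, hx⟩ := h
  have hs' : s = 1 - t := by linarith
  subst hs'
  refine ⟨t, ht, by linarith, ?_, ?_⟩
  · rw [← hx]; simp
  · rw [← hx]; simp

section

variable {V : Set (ℝ × ℝ)} {η : ℕ → ℝ} {n : ℕ → ℕ} {x : ℕ → ℕ → ℝ}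

lemma Rows.eta01 (hR : Rows V 2 η n x) : η 0 < η 1 := hR.hη 0 (by norm_num)
lemma Rows.eta12 (hR : Rows V 2 η n x) : η 1 < η 2 := hR.hη 1 (by norm_num)

/-- points of `V` with heights between `η 0` and `η 2`. -/
lemma Rows.cases (hR : Rows V 2 η n x) {r : ℝ × ℝ} (hr : r ∈ V) (h0 : η 0 ≤ r.2)
    (h2 : r.2 ≤ η 2) : (r.2 = η 0 ∧ ∃ j < n 0, r.1 = x 0 j) ∨ (r.2 = η 1 ∧ ∃ j < n 1, r.1 = x 1 j) ∨
      (r.2 = η 2 ∧ ∃ j < n 2, r.1 = x 2 j) := by
  obtain ⟨i, hi, j, hj, rfl⟩ := hR.only r hr h0 h2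
  interval_cases i
  · exact Or.inl ⟨rfl, j, hj, rfl⟩
  · exact Or.inr (Or.inl ⟨rfl, j, hj, rfl⟩)
  · exact Or.inr (Or.inr ⟨rfl, j, hj, rfl⟩)

lemma Rows.sees_row {i : ℕ} (hR : Rows V 2 η n x) (hi : i ≤ 2) {j : ℕ} (hj : j + 1 < n i) :
    Sees V (x i j, η i) (x i (j + 1), η i) := by
  have e1 := Rows.eta01 hR
  have e2 := Rows.eta12 hR
  have hlt : x i j < x i (j + 1) := hR.hx i hi j (j + 1) (by omega) hj
  refine ⟨fun h => ?_, fun r hr hseg => ?_⟩
  · rw [Prod.mk.injEq] at h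
    linarith [h.1]
  · obtain ⟨t, ht0, ht1, hr1, hr2⟩ := seg_param hseg
    simp only at hr1 hr2
    have hr2' : r.2 = η i := by rw [hr2]; ring
    have hi0 : η 0 ≤ η i := by interval_cases i <;> linarith
    have hi2 : η i ≤ η 2 := by interval_cases i <;> linarith
    obtain ⟨i', hi', j', hj', heq⟩ := hR.only r hr (by linarith) (by linarith)
    have hii : i' = i := by
      have : η i' = η i := by rw [← hr2', heq]
      by_contra hne
      interval_cases i <;> interval_cases i' <;> first | exact hne rfl | linarith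
    subst hii
    have hr1' : r.1 = x i' j' := by rw [heq]
    have a1 : x i' j < x i' j' := by rw [← hr1', hr1]; nlinarith
    have a2 : x i' j' < x i' (j + 1) := by rw [← hr1', hr1]; nlinarith
    rcases lt_trichotomy j' j with h | h | h
    · have := hR.hx i' hi j' j h (by omega)
      linarith
    · subst h; exact lt_irrefl _ a1
    · rcases lt_or_eq_of_le (Nat.succ_le_of_lt h) with h' | h'
      · have := hR.hx i' hi (j + 1) j' h' hj'
        linarith
      · rw [← h'] at a2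
        exact lt_irrefl _ a2

lemma Rows.sees_adj01 (hR : Rows V 2 η n x) (a b : ℝ) : Sees V (a, η 0) (b, η 1) := by
  have e1 := Rows.eta01 hR
  have e2 := Rows.eta12 hR
  refine ⟨fun h => ?_, fun r hr hseg => ?_⟩
  · rw [Prod.mk.injEq] at h
    linarith [h.2]
  · obtain ⟨t, ht0, ht1, hr1, hr2⟩ := seg_param hseg
    simp only at hr1 hr2
    have b1 : η 0 < r.2 := by rw [hr2]; nlinarith
    have b2 : r.2 < η 1 := by rw [hr2]; nlinarith
    rcases Rows.cases hR hr (by linarith) (by linarith) with ⟨h, -⟩ | ⟨h, -⟩ | ⟨h, -⟩ <;> linarith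

lemma Rows.sees_adj12 (hR : Rows V 2 η n x) (a b : ℝ) : Sees V (a, η 1) (b, η 2) := by
  have e1 := Rows.eta01 hR
  have e2 := Rows.eta12 hR
  refine ⟨fun h => ?_, fun r hr hseg => ?_⟩
  · rw [Prod.mk.injEq] at h
    linarith [h.2]
  · obtain ⟨t, ht0, ht1, hr1, hr2⟩ := seg_param hseg
    simp only at hr1 hr2
    have b1 : η 1 < r.2 := by rw [hr2]; nlinarith
    have b2 : r.2 < η 2 := by rw [hr2]; nlinarith
    rcases Rows.cases hR hr (by linarith) (by linarith) with ⟨h, -⟩ | ⟨h, -⟩ | ⟨h, -⟩ <;> linarith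

lemma Rows.sees_02 (hR : Rows V 2 η n x) (j k : ℕ)
    (h : ∀ m, m < n 1 → x 1 m ≠ cross η x 0 j k) : Sees V (x 0 j, η 0) (x 2 k, η 2) := by
  have e1 := Rows.eta01 hR
  have e2 := Rows.eta12 hR
  refine ⟨fun h => ?_, fun r hr hseg => ?_⟩
  · rw [Prod.mk.injEq] at h
    linarith [h.2]
  · obtain ⟨t, ht0, ht1, hr1, hr2⟩ := seg_param hseg
    simp only at hr1 hr2
    have b1 : η 0 < r.2 := by rw [hr2]; nlinarith
    have b2 : r.2 < η 2 := by rw [hr2]; nlinarith
    rcases Rows.cases hR hr (by linarith) (by linarith) with ⟨h', -⟩ | ⟨h', m, hm, hm2⟩ | ⟨h', -⟩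
    · linarith
    · apply h m hm
      rw [← hm2, hr1, cross]
      simp only [zero_add]
      have ht : t * (η 2 - η 0) = η 1 - η 0 := by
        rw [h'] at hr2
        linarith
      have hne : η 2 - η 0 ≠ 0 := by linarith
      rw [eq_div_iff hne]
      have : (1 - t) * (η 2 - η 0) = η 2 - η 1 := by linarith
      calc ((1 - t) * x 0 j + t * x 2 k) * (η 2 - η 0)
          = ((1 - t) * (η 2 - η 0)) * x 0 j + (t * (η 2 - η 0)) * x 2 k := by ring
        _ = _ := by rw [this, ht]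
    · linarith

end

theorem row_mono (V : Set (ℝ × ℝ)) (hK : K5free V) (η : ℕ → ℝ) (n : ℕ → ℕ) (x : ℕ → ℕ → ℝ)
    (hR : Rows V 2 η n x) (h2 : 2 ≤ n 1) :
    (∀ j k, j + 1 < n 0 → k < n 2 →
      pos (n 1) (x 1) (cross η x 0 j k) + 1 ≤ pos (n 1) (x 1) (cross η x 0 (j + 1) k)) ∧
    (∀ j k, j < n 0 → k + 1 < n 2 →
      pos (n 1) (x 1) (cross η x 0 j k) + 1 ≤ pos (n 1) (x 1) (cross η x 0 j (k + 1))) := by
  have e1 := Rows.eta01 hR
  have e2 := Rows.eta12 hR
  constructor
  · intro j k hj hk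
    by_contra hcon
    have hlt : cross η x 0 j k < cross η x 0 (j + 1) k := by
      have := hR.hx 0 (by norm_num) j (j + 1) (by omega) hj
      unfold cross
      simp only [zero_add]
      apply div_lt_div_of_pos_right _ (by linarith)
      nlinarith
    obtain ⟨b1, b2⟩ := pos_eq_of_le _ _ _ _ hlt hcon
    exact K5free.elim5 hK (hR.mem 0 (by norm_num) j (by omega)) (hR.mem 0 (by norm_num) (j + 1) hj)
      (hR.mem 1 (by norm_num) 0 (by omega)) (hR.mem 1 (by norm_num) 1 (by omega))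
      (hR.mem 2 (by norm_num) k hk)
      (Rows.sees_row hR (by norm_num) hj) (Rows.sees_adj01 hR _ _) (Rows.sees_adj01 hR _ _)
      (Rows.sees_02 hR j k b1) (Rows.sees_adj01 hR _ _) (Rows.sees_adj01 hR _ _)
      (Rows.sees_02 hR (j + 1) k b2) (Rows.sees_row hR (by norm_num) (by omega))
      (Rows.sees_adj12 hR _ _) (Rows.sees_adj12 hR _ _)
  · intro j k hj hk
    by_contra hcon
    have hlt : cross η x 0 j k < cross η x 0 j (k + 1) := by
      have := hR.hx 2 (by norm_num) k (k + 1) (by omega) hk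
      unfold cross
      simp only [zero_add]
      apply div_lt_div_of_pos_right _ (by linarith)
      nlinarith
    obtain ⟨b1, b2⟩ := pos_eq_of_le _ _ _ _ hlt hcon
    exact K5free.elim5 hK (hR.mem 2 (by norm_num) k (by omega)) (hR.mem 2 (by norm_num) (k + 1) hk)
      (hR.mem 1 (by norm_num) 0 (by omega)) (hR.mem 1 (by norm_num) 1 (by omega))
      (hR.mem 0 (by norm_num) j hj)
      (Rows.sees_row hR (by norm_num) hk) (Rows.sees_adj12 hR _ _).symm (Rows.sees_adj12 hR _ _).symm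
      (Rows.sees_02 hR j k b1).symm (Rows.sees_adj12 hR _ _).symm (Rows.sees_adj12 hR _ _).symm
      (Rows.sees_02 hR j (k + 1) b2).symm (Rows.sees_row hR (by norm_num) (by omega))
      (Rows.sees_adj01 hR _ _).symm (Rows.sees_adj01 hR _ _).symm

end Pool.Agent.helper40.Vis
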