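import Pool.Agent.helper88.Vis.Defs
import Pool.Agent.helper40.Vis.RowMono

set_option autoImplicit false

/-!
MP_6b3417_co, module II-A: the edge lemma (II.1).
-/

namespace Pool.Agent.helper40.Vis

open Pool.Agent.helper47.Vis Pool.Agent.helper88.Vis

/-- Coordinate along `d`. -/
def al (c d p : ℝ × ℝ) : ℝ := d.1 * (p.1 - c.1) + d.2 * (p.2 - c.2)

/-- Linear functional imitating the lexicographic order `(sd, al)`. -/
def lx (ε : ℝ) (c d p : ℝ × ℝ) : ℝ := sd c d p + ε * al c d p

lemma al_lx (ε : ℝ) (c d u v p : ℝ × ℝ) : (al c d v - al c d u) * (lx ε c d p - lx ε c d u) -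
    (lx ε c d v - lx ε c d u) * (al c d p - al c d u) = (d.1 ^ 2 + d.2 ^ 2) * ori u v p := by
  unfold lx al sd ori; ring

lemma exists_eps (V : Finset (ℝ × ℝ)) (c d : ℝ × ℝ) : ∃ ε : ℝ, 0 < ε ∧ ∀ p ∈ V, ∀ q ∈ V,
    (sd c d p < sd c d q ∨ (sd c d p = sd c d q ∧ al c d p < al c d q)) →
    lx ε c d p < lx ε c d q := by
  have h : ∀ᶠ ε in nhdsWithin (0 : ℝ) (Set.Ioi 0), ∀ p ∈ V, ∀ q ∈ V,
      (sd c d p < sd c d q ∨ (sd c d p = sd c d q ∧ al c d p < al c d q)) →
      lx ε c d p < lx ε c d q := by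
    rw [Filter.eventually_all_finset]
    intro p hp
    rw [Filter.eventually_all_finset]
    intro q hq
    by_cases h1 : sd c d p < sd c d q
    · have hcont : Continuous (fun ε : ℝ => lx ε c d q - lx ε c d p) := by
        unfold lx; fun_prop
      have h0 : 0 < lx 0 c d q - lx 0 c d p := by unfold lx; simpa using h1
      have hev : ∀ᶠ ε in nhds (0 : ℝ), 0 < lx ε c d q - lx ε c d p :=
        (hcont.tendsto 0).eventually (lt_mem_nhds h0)
      filter_upwards [nhdsWithin_le_nhds hev] with ε hε _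
      linarith
    · filter_upwards [self_mem_nhdsWithin] with ε hε h2
      rcases h2 with h2 | ⟨h2, h3⟩
      · exact absurd h2 h1
      · have hε' : 0 < ε := hε
        unfold lx
        rw [h2]
        have := mul_lt_mul_of_pos_left h3 hε'
        linarith
  obtain ⟨ε, h1, h2⟩ := (h.and self_mem_nhdsWithin).exists
  exact ⟨ε, h2, h1⟩

lemma coords_inj {c d p q : ℝ × ℝ} (hd : d ≠ 0) (h1 : sd c d p = sd c d q)
    (h2 : al c d p = al c d q) : p = q := by
  have hd2 : 0 < d.1 ^ 2 + d.2 ^ 2 := by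
    rcases eq_or_ne d.1 0 with h | h
    · have : d.2 ≠ 0 := fun h' => hd (Prod.ext h h')
      positivity
    · positivity
  unfold sd at h1
  unfold al at h2
  have e1 : (d.1 ^ 2 + d.2 ^ 2) * (p.1 - q.1) = 0 := by linear_combination d.1 * h2 - d.2 * h1
  have e2 : (d.1 ^ 2 + d.2 ^ 2) * (p.2 - q.2) = 0 := by linear_combination d.2 * h2 + d.1 * h1
  rcases mul_eq_zero.1 e1 with h | h
  · exact absurd h hd2.ne'
  rcases mul_eq_zero.1 e2 with h' | h'
  · exact absurd h' hd2.ne'
  ext
  · linarith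
  · linarith

lemma ori_seg {u v p q r : ℝ × ℝ} {t : ℝ} (h1 : r.1 = (1 - t) * p.1 + t * q.1)
    (h2 : r.2 = (1 - t) * p.2 + t * q.2) : ori u v r = (1 - t) * ori u v p + t * ori u v q := by
  unfold ori; rw [h1, h2]; ring

lemma sd_seg {c d p q r : ℝ × ℝ} {t : ℝ} (h1 : r.1 = (1 - t) * p.1 + t * q.1)
    (h2 : r.2 = (1 - t) * p.2 + t * q.2) : sd c d r = (1 - t) * sd c d p + t * sd c d q := by
  unfold sd; rw [h1, h2]; ring

lemma lx_seg {ε : ℝ} {c d p q r : ℝ × ℝ} {t : ℝ} (h1 : r.1 = (1 - t) * p.1 + t * q.1)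
    (h2 : r.2 = (1 - t) * p.2 + t * q.2) :
    lx ε c d r = (1 - t) * lx ε c d p + t * lx ε c d q := by
  unfold lx al sd; rw [h1, h2]; ring

lemma ori_self_left (u v : ℝ × ℝ) : ori u v u = 0 := by unfold ori; ring
lemma ori_self_right (u v : ℝ × ℝ) : ori u v v = 0 := by unfold ori; ring

lemma col_of {u v a b e : ℝ × ℝ} (huv : u ≠ v) (ha : ori u v a = 0) (hb : ori u v b = 0)
    (he : ori u v e = 0) : ori a b e = 0 := by
  by_cases h1 : v.1 - u.1 = 0
  · have h2 : v.2 - u.2 ≠ 0 := by
      intro h2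
      exact huv (Prod.ext (by linarith) (by linarith))
    have : (v.2 - u.2) * ori a b e = 0 := by
      unfold ori at *
      linear_combination (b.2 - a.2) * (he - ha) - (e.2 - a.2) * (hb - ha)
    rcases mul_eq_zero.1 this with h | h
    · exact absurd h h2
    · exact h
  · have : (v.1 - u.1) * ori a b e = 0 := by
      unfold ori at *
      linear_combination (b.1 - a.1) * (he - ha) - (e.1 - a.1) * (hb - ha)
    rcases mul_eq_zero.1 this with h | h
    · exact absurd h h1
    · exact h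

/-- Module II-A. -/
theorem edge_lemma (V : Finset (ℝ × ℝ)) (hK : K5free (V : Set (ℝ × ℝ))) (c d : ℝ × ℝ) (hd : d ≠ 0)
    (hV : ∀ p ∈ V, 0 ≤ sd c d p) (hnc : NonCol (fil V (fun p => 0 < sd c d p))) :
    ∃ c' d' : ℝ × ℝ, d' ≠ 0 ∧
      (∃ u ∈ V, 0 < sd c d u ∧ sd c' d' u = 0 ∧ ∀ p ∈ V, 0 < sd c d p → sd c d u ≤ sd c d p) ∧
      (∀ p ∈ V, 0 < sd c d p → 0 ≤ sd c' d' p) ∧
      2 ≤ (fil V (fun p => 0 < sd c d p ∧ sd c' d' p = 0)).card ∧
      (fil V (fun p => sd c d p = 0 ∧ 0 ≤ sd c' d' p)).card ≤ 2 := by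
  classical
  obtain ⟨ε, hε, hlex⟩ := exists_eps V c d
  have hd2 : 0 < d.1 ^ 2 + d.2 ^ 2 := by
    rcases eq_or_ne d.1 0 with h | h
    · have : d.2 ≠ 0 := fun h' => hd (Prod.ext h h')
      positivity
    · positivity
  have hsdlt : ∀ p ∈ V, ∀ q ∈ V, sd c d p < sd c d q → lx ε c d p < lx ε c d q :=
    fun p hp q hq h => hlex p hp q hq (Or.inl h)
  have hginj : ∀ p ∈ V, ∀ q ∈ V, lx ε c d p = lx ε c d q → p = q := by
    intro p hp q hq h
    rcases lt_trichotomy (sd c d p) (sd c d q) with h1 | h1 | h1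
    · exact absurd h (hsdlt p hp q hq h1).ne
    · rcases lt_trichotomy (al c d p) (al c d q) with h2 | h2 | h2
      · exact absurd h (hlex p hp q hq (Or.inr ⟨h1, h2⟩)).ne
      · exact coords_inj hd h1 h2
      · exact absurd h (hlex q hq p hp (Or.inr ⟨h1.symm, h2⟩)).ne'
    · exact absurd h (hsdlt q hq p hp h1).ne'
  have hseg : ∀ {p q r : ℝ × ℝ}, r ∈ openSegment ℝ p q → lx ε c d p < lx ε c d q →
      lx ε c d p < lx ε c d r ∧ lx ε c d r < lx ε c d q := by
    intro p q r hr hpq
    obtain ⟨t, ht0, ht1, e1, e2⟩ := seg_param hr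
    have := lx_seg (ε := ε) (c := c) (d := d) e1 e2
    constructor
    · nlinarith
    · nlinarith
  set U := fil V (fun p => 0 < sd c d p) with hU
  have memU : ∀ {p : ℝ × ℝ}, p ∈ U ↔ p ∈ V ∧ 0 < sd c d p := fun {p} => mem_fil
  obtain ⟨a, ha, b, hb, e, he, habe⟩ := hnc
  -- u
  obtain ⟨u, huU, humin⟩ := Finset.exists_min_image U (lx ε c d) ⟨a, ha⟩
  obtain ⟨huV, hu0⟩ := memU.1 huU
  -- c1
  have hne1 : (U.erase u).Nonempty := by
    by_contra hc
    rw [Finset.not_nonempty_iff_eq_empty] at hc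
    have hall : ∀ p ∈ U, p = u := by
      intro p hp
      by_contra hpu
      have : p ∈ U.erase u := Finset.mem_erase.2 ⟨hpu, hp⟩
      rw [hc] at this
      simp at this
    apply habe
    rw [hall a ha, hall b hb, hall e he]
    exact ori_self_left u u
  obtain ⟨c1, hc1, hc1min⟩ := Finset.exists_min_image (U.erase u) (lx ε c d) hne1
  obtain ⟨hc1u, hc1U⟩ := Finset.mem_erase.1 hc1
  obtain ⟨hc1V, hc10⟩ := memU.1 hc1U
  have hgu : ∀ p ∈ U, p ≠ u → lx ε c d u < lx ε c d p := by
    intro p hp hpu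
    exact lt_of_le_of_ne (humin p hp) (fun h => hpu (hginj _ (memU.1 hp).1 _ huV h.symm))
  have hguc := hgu c1 hc1U hc1u
  -- w
  have hne2 : (U.filter (fun p => ori u c1 p ≠ 0)).Nonempty := by
    by_contra hc
    rw [Finset.not_nonempty_iff_eq_empty] at hc
    have hall : ∀ p ∈ U, ori u c1 p = 0 := by
      intro p hp
      by_contra hpu
      have : p ∈ U.filter (fun p => ori u c1 p ≠ 0) := Finset.mem_filter.2 ⟨hp, hpu⟩
      rw [hc] at this
      simp at this
    exact habe (col_of (Ne.symm hc1u) (hall a ha) (hall b hb) (hall e he))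
  obtain ⟨w, hw, hwmin⟩ := Finset.exists_min_image _ (lx ε c d) hne2
  obtain ⟨hwU, hwori⟩ := Finset.mem_filter.1 hw
  obtain ⟨hwV, hw0⟩ := memU.1 hwU
  have hwu : w ≠ u := by
    rintro rfl
    exact hwori (ori_self_left _ _)
  have hwc1 : w ≠ c1 := by
    rintro rfl
    exact hwori (ori_self_right _ _)
  have hguw := hgu w hwU hwu
  have hgcw : lx ε c d c1 < lx ε c d w := by
    refine lt_of_le_of_ne (hc1min w (Finset.mem_erase.2 ⟨hwu, hwU⟩)) (fun h => ?_)
    exact hwc1 (hginj _ hwV _ hc1V h.symm)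
  -- elements below w are on the line
  have hbelow : ∀ p ∈ V, 0 < sd c d p → lx ε c d p < lx ε c d w → ori u c1 p = 0 := by
    intro p hp hp0 hpw
    by_contra hc
    have := hwmin p (Finset.mem_filter.2 ⟨memU.2 ⟨hp, hp0⟩, hc⟩)
    linarith
  have hbelowc : ∀ p ∈ V, 0 < sd c d p → lx ε c d p < lx ε c d c1 → p = u := by
    intro p hp hp0 hpw
    by_contra hc
    have := hc1min p (Finset.mem_erase.2 ⟨hc, memU.2 ⟨hp, hp0⟩⟩)
    linarith
  -- sign
  obtain ⟨σ, hσ1, hσw⟩ : ∃ σ : ℝ, σ ≠ 0 ∧ 0 < σ * ori u c1 w := by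
    rcases lt_or_gt_of_ne hwori with h | h
    · exact ⟨-1, by norm_num, by linarith⟩
    · exact ⟨1, by norm_num, by linarith⟩
  -- v
  obtain ⟨v, hv, hvmax⟩ := Finset.exists_max_image (U.erase u)
    (fun p => σ * (al c d p - al c d u) / (lx ε c d p - lx ε c d u)) hne1
  obtain ⟨hvu, hvU⟩ := Finset.mem_erase.1 hv
  obtain ⟨hvV, hv0⟩ := memU.1 hvU
  have hguv := hgu v hvU hvu
  have hsup : ∀ p ∈ U, 0 ≤ σ * ori u v p := by
    intro p hp
    rcases eq_or_ne p u with rfl | hpu
    · rw [ori_self_left]; simp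
    have hgup := hgu p hp hpu
    have h1 := hvmax p (Finset.mem_erase.2 ⟨hpu, hp⟩)
    have h2 : 0 < lx ε c d p - lx ε c d u := by linarith
    have h3 : 0 < lx ε c d v - lx ε c d u := by linarith
    rw [div_le_div_iff₀ h2 h3] at h1
    have h4 := al_lx ε c d u v p
    have h5 : 0 ≤ (d.1 ^ 2 + d.2 ^ 2) * (σ * ori u v p) := by
      have : (d.1 ^ 2 + d.2 ^ 2) * (σ * ori u v p) = σ * ((d.1 ^ 2 + d.2 ^ 2) * ori u v p) := by
        ring
      rw [this, ← h4]
      nlinarith
    exact nonneg_of_mul_nonneg_right h5 hd2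
  -- the identity for points on the line `sd = 0`
  have hpush : ∀ s ∈ V, sd c d s = 0 → 0 ≤ σ * ori u v s → 0 ≤ σ * ori u c1 s := by
    intro s hs hs0 h1
    by_contra hc
    push Not at hc
    have h2 : lx ε c d s < lx ε c d u := hsdlt s hs u huV (by rw [hs0]; exact hu0)
    have h3 := al_lx ε c d u v s
    have h4 := al_lx ε c d u v c1
    have h5 := al_lx ε c d u c1 s
    have h6 : 0 ≤ σ * ori u v c1 := hsup c1 hc1U
    -- g_C cross(V,S) = g_V cross(C,S) + g_S cross(V,C)
    have key : (lx ε c d c1 - lx ε c d u) * ((d.1 ^ 2 + d.2 ^ 2) * (σ * ori u v s)) =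
        (lx ε c d v - lx ε c d u) * ((d.1 ^ 2 + d.2 ^ 2) * (σ * ori u c1 s)) +
        (lx ε c d s - lx ε c d u) * ((d.1 ^ 2 + d.2 ^ 2) * (σ * ori u v c1)) := by
      linear_combination (-(σ * (lx ε c d c1 - lx ε c d u))) * h3 +
        (σ * (lx ε c d v - lx ε c d u)) * h5 + (σ * (lx ε c d s - lx ε c d u)) * h4
    have k1 : 0 ≤ (lx ε c d c1 - lx ε c d u) * ((d.1 ^ 2 + d.2 ^ 2) * (σ * ori u v s)) :=
      mul_nonneg (by linarith) (mul_nonneg hd2.le h1)
    have k2 : (lx ε c d v - lx ε c d u) * ((d.1 ^ 2 + d.2 ^ 2) * (σ * ori u c1 s)) < 0 :=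
      mul_neg_of_pos_of_neg (by linarith) (mul_neg_of_pos_of_neg hd2 hc)
    have k3 : (lx ε c d s - lx ε c d u) * ((d.1 ^ 2 + d.2 ^ 2) * (σ * ori u v c1)) ≤ 0 :=
      mul_nonpos_of_nonpos_of_nonneg (by linarith) (mul_nonneg hd2.le h6)
    linarith
  -- the new line
  have hsd' : ∀ p : ℝ × ℝ, sd u (σ * (v.1 - u.1), σ * (v.2 - u.2)) p = σ * ori u v p := by
    intro p; unfold sd ori; ring
  refine ⟨u, (σ * (v.1 - u.1), σ * (v.2 - u.2)), ?_, ?_, ?_, ?_, ?_⟩
  · intro h0
    have h01 : σ * (v.1 - u.1) = 0 := congrArg Prod.fst h0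
    have h02 : σ * (v.2 - u.2) = 0 := congrArg Prod.snd h0
    rcases mul_eq_zero.1 h01 with h | h
    · exact hσ1 h
    rcases mul_eq_zero.1 h02 with h' | h'
    · exact hσ1 h'
    exact hvu (Prod.ext (by linarith) (by linarith))
  · refine ⟨u, huV, hu0, by rw [hsd', ori_self_left, mul_zero], fun p hp hp0 => ?_⟩
    by_contra hc
    push Not at hc
    have h1 := hsdlt p hp u huV hc
    have h2 := humin p (memU.2 ⟨hp, hp0⟩)
    linarith
  · intro p hp hp0
    rw [hsd']
    exact hsup p (memU.2 ⟨hp, hp0⟩)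
  · have hsub : ({u, v} : Finset (ℝ × ℝ)) ⊆
        fil V (fun p => 0 < sd c d p ∧ sd u (σ * (v.1 - u.1), σ * (v.2 - u.2)) p = 0) := by
      intro p hp
      rcases Finset.mem_insert.1 hp with rfl | hp
      · exact mem_fil.2 ⟨huV, hu0, by rw [hsd', ori_self_left, mul_zero]⟩
      · rw [Finset.mem_singleton] at hp
        subst hp
        exact mem_fil.2 ⟨hvV, hv0, by rw [hsd', ori_self_right, mul_zero]⟩
    have := Finset.card_le_card hsub
    rwa [Finset.card_pair (Ne.symm hvu)] at this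
  · -- at most two
    set B0 := fil V (fun s => sd c d s = 0 ∧ ori u c1 s = 0) with hB0
    set B1 := fil V (fun s => sd c d s = 0 ∧ 0 < σ * ori u c1 s) with hB1
    have hsub : fil V (fun p => sd c d p = 0 ∧
        0 ≤ sd u (σ * (v.1 - u.1), σ * (v.2 - u.2)) p) ⊆ B0 ∪ B1 := by
      intro s hs
      obtain ⟨hsV, hs0, hs1⟩ := mem_fil.1 hs
      rw [hsd'] at hs1
      have h1 := hpush s hsV hs0 hs1
      rcases eq_or_lt_of_le h1 with h | h
      · refine Finset.mem_union_left _ (mem_fil.2 ⟨hsV, hs0, ?_⟩)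
        rcases mul_eq_zero.1 h.symm with h' | h'
        · exact absurd h' hσ1
        · exact h'
      · exact Finset.mem_union_right _ (mem_fil.2 ⟨hsV, hs0, h⟩)
    have hcard0 : B0.card ≤ 1 := by
      rw [Finset.card_le_one]
      intro s hs s' hs'
      obtain ⟨hsV, hs0, hs1⟩ := mem_fil.1 hs
      obtain ⟨hsV', hs0', hs1'⟩ := mem_fil.1 hs'
      by_contra hss
      -- u on the line s s'
      have h1 : ori s s' u = 0 := col_of (Ne.symm hc1u) hs1 hs1' (ori_self_left _ _)
      have h2 : (s'.1 - s.1) * sd c d u = d.1 * ori s s' u := by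
        unfold ori sd at *
        linear_combination (s'.1 - u.1) * hs0 + (u.1 - s.1) * hs0'
      have h3 : (s'.2 - s.2) * sd c d u = d.2 * ori s s' u := by
        unfold ori sd at *
        linear_combination (s'.2 - u.2) * hs0 + (u.2 - s.2) * hs0'
      rw [h1, mul_zero] at h2 h3
      rcases mul_eq_zero.1 h2 with h | h
      · rcases mul_eq_zero.1 h3 with h' | h'
        · exact hss (Prod.ext (by linarith) (by linarith))
        · exact hu0.ne' h'
      · exact hu0.ne' h
    have hcard1 : B1.card ≤ 1 := by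
      by_contra hc
      push Not at hc
      have hB1ne : B1.Nonempty := Finset.card_pos.1 (by omega)
      obtain ⟨s, hs, hsmin⟩ := Finset.exists_min_image B1 (lx ε c d) hB1ne
      have hB1ne' : (B1.erase s).Nonempty := by
        rw [← Finset.card_pos, Finset.card_erase_of_mem hs]
        omega
      obtain ⟨s', hs', hsmin'⟩ := Finset.exists_min_image (B1.erase s) (lx ε c d) hB1ne'
      obtain ⟨hss', hs'B⟩ := Finset.mem_erase.1 hs'
      obtain ⟨hsV, hs0, hs1⟩ := mem_fil.1 hs
      obtain ⟨hsV', hs0', hs1'⟩ := mem_fil.1 hs'B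
      have hgss : lx ε c d s < lx ε c d s' :=
        lt_of_le_of_ne (hsmin s' hs'B) (fun h => hss' (hginj _ hsV' _ hsV h.symm))
      have hmix : ∀ t ∈ V, sd c d t = 0 → 0 < σ * ori u c1 t →
          Sees (V : Set (ℝ × ℝ)) u t ∧ Sees (V : Set (ℝ × ℝ)) c1 t ∧
          Sees (V : Set (ℝ × ℝ)) w t := by
        intro t htV ht0 ht1
        have gu : lx ε c d t < lx ε c d u := hsdlt t htV u huV (by rw [ht0]; exact hu0)
        have gc : lx ε c d t < lx ε c d c1 := hsdlt t htV c1 hc1V (by rw [ht0]; exact hc10)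
        have gw : lx ε c d t < lx ε c d w := hsdlt t htV w hwV (by rw [ht0]; exact hw0)
        refine ⟨⟨?_, fun r hr hrs => ?_⟩, ⟨?_, fun r hr hrs => ?_⟩, ⟨?_, fun r hr hrs => ?_⟩⟩
        · rintro rfl; exact gu.ne rfl
        · rw [openSegment_symm] at hrs
          obtain ⟨θ, ht0', ht1', e1, e2⟩ := seg_param hrs
          have k := (hseg hrs gu).2
          have k0 : 0 < sd c d r := by
            rw [sd_seg e1 e2, ht0]
            have := mul_pos ht0' hu0
            linarith
          have := humin r (memU.2 ⟨hr, k0⟩)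
          linarith
        · rintro rfl; exact gc.ne rfl
        · rw [openSegment_symm] at hrs
          obtain ⟨θ, ht0', ht1', e1, e2⟩ := seg_param hrs
          have k := (hseg hrs gc).2
          have k0 : 0 < sd c d r := by
            rw [sd_seg e1 e2, ht0]
            have := mul_pos ht0' hc10
            linarith
          have k1 := hbelowc r hr k0 k
          have k2 := ori_seg (u := u) (v := c1) e1 e2
          rw [k1, ori_self_left, ori_self_right] at k2
          have k3 : 0 < (1 - θ) * (σ * ori u c1 t) := mul_pos (by linarith) ht1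
          have k4 : (1 - θ) * (σ * ori u c1 t) = 0 := by linear_combination (-σ) * k2
          linarith
        · rintro rfl; exact gw.ne rfl
        · rw [openSegment_symm] at hrs
          obtain ⟨θ, ht0', ht1', e1, e2⟩ := seg_param hrs
          have k := (hseg hrs gw).2
          have k0 : 0 < sd c d r := by
            rw [sd_seg e1 e2, ht0]
            have := mul_pos ht0' hw0
            linarith
          have k1 := hbelow r hr k0 k
          have k2 := ori_seg (u := u) (v := c1) e1 e2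
          rw [k1] at k2
          have k3 : 0 < (1 - θ) * (σ * ori u c1 t) := mul_pos (by linarith) ht1
          have k5 : 0 < θ * (σ * ori u c1 w) := mul_pos ht0' hσw
          have k4 : (1 - θ) * (σ * ori u c1 t) + θ * (σ * ori u c1 w) = 0 := by
            linear_combination (-σ) * k2
          linarith
      obtain ⟨m1, m2, m3⟩ := hmix s hsV hs0 hs1
      obtain ⟨n1, n2, n3⟩ := hmix s' hsV' hs0' hs1'
      have hpos : ∀ {p q r : ℝ × ℝ}, r ∈ openSegment ℝ p q → 0 < sd c d p → 0 < sd c d q →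
          0 < sd c d r := by
        intro p q r hr hp hq
        obtain ⟨t, ht0, ht1, e1, e2⟩ := seg_param hr
        rw [sd_seg e1 e2]
        have := mul_pos ht0 hq
        have := mul_pos (show (0:ℝ) < 1 - t by linarith) hp
        linarith
      refine hK.elim5 (a := u) (b := c1) (c := w) (d := s) (e := s') huV hc1V hwV hsV hsV'
        ⟨Ne.symm hc1u, fun r hr hrs => ?_⟩ ⟨Ne.symm hwu, fun r hr hrs => ?_⟩ m1 n1
        ⟨Ne.symm hwc1, fun r hr hrs => ?_⟩ m2 n2 m3 n3 ⟨Ne.symm hss', fun r hr hrs => ?_⟩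
      · -- u c1
        have k := hseg hrs hguc
        have k0 := hpos hrs hu0 hc10
        have := hbelowc r hr k0 k.2
        rw [this] at k
        linarith [k.1]
      · -- u w
        have k := hseg hrs hguw
        have k0 := hpos hrs hu0 hw0
        have k1 := hbelow r hr k0 k.2
        obtain ⟨θ, ht0', ht1', e1, e2⟩ := seg_param hrs
        have k2 := ori_seg (u := u) (v := c1) e1 e2
        rw [k1, ori_self_left] at k2
        have k3 : θ * ori u c1 w ≠ 0 := mul_ne_zero ht0'.ne' hwori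
        apply k3
        linarith
      · -- c1 w
        have k := hseg hrs hgcw
        have k0 := hpos hrs hc10 hw0
        have k1 := hbelow r hr k0 k.2
        obtain ⟨θ, ht0', ht1', e1, e2⟩ := seg_param hrs
        have k2 := ori_seg (u := u) (v := c1) e1 e2
        rw [k1, ori_self_right] at k2
        have k3 : θ * ori u c1 w ≠ 0 := mul_ne_zero ht0'.ne' hwori
        apply k3
        linarith
      · -- s s'
        have k := hseg hrs hgss
        obtain ⟨θ, ht0', ht1', e1, e2⟩ := seg_param hrs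
        have k0 : sd c d r = 0 := by
          rw [sd_seg e1 e2, hs0, hs0']; ring
        have k2 := ori_seg (u := u) (v := c1) e1 e2
        have k3 : 0 < σ * ori u c1 r := by
          have : σ * ori u c1 r = (1 - θ) * (σ * ori u c1 s) + θ * (σ * ori u c1 s') := by
            rw [k2]; ring
          rw [this]
          have := mul_pos ht0' hs1'
          have := mul_pos (show (0:ℝ) < 1 - θ by linarith) hs1
          linarith
        have k4 : r ∈ B1.erase s := by
          refine Finset.mem_erase.2 ⟨?_, mem_fil.2 ⟨hr, k0, k3⟩⟩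
          rintro rfl
          exact k.1.ne rfl
        have := hsmin' r k4
        linarith [k.2]
    calc _ ≤ (B0 ∪ B1).card := Finset.card_le_card hsub
      _ ≤ B0.card + B1.card := Finset.card_union_le _ _
      _ ≤ 2 := by omega

end Pool.Agent.helper40.Vis
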