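import Pool.Agent.helper88.Vis.Defs

set_option autoImplicit false

/-!
MP_6b3417_co, module I-E (I.4): a long chain of convex layers of a `K₅`-free set whose outer
boundary is larger than the next one produces many collinear points.
-/

namespace Pool.Agent.helper40.Vis

open Pool.Agent.helper47.Vis Pool.Agent.helper88.Vis

lemma mem_Bd_iff {P : Finset (ℝ × ℝ)} {p : ℝ × ℝ} : p ∈ Bd P ↔ p ∈ P ∧ ∃ f : ℝ × ℝ, f ≠ 0 ∧
    ∀ r ∈ P, f.1 * p.1 + f.2 * p.2 ≤ f.1 * r.1 + f.2 * r.2 := by
  unfold Bd; rw [mem_fil]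

lemma mem_inner_iff {P : Finset (ℝ × ℝ)} {p : ℝ × ℝ} : p ∈ inner P ↔ p ∈ P ∧ p ∉ Bd P := by
  unfold Pool.Agent.helper88.Vis.inner; rw [mem_fil]

lemma inner_subset (P : Finset (ℝ × ℝ)) : inner P ⊆ P := fun _ h => (mem_inner_iff.1 h).1

lemma layer_inner (P : Finset (ℝ × ℝ)) (n : ℕ) : layer (inner P) n = layer P (n + 1) := by
  induction n with
  | zero => rfl
  | succ n ih => rw [layer, ih, ← layer]

lemma layer_subset (P : Finset (ℝ × ℝ)) (n : ℕ) : layer P n ⊆ P := by
  induction n with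
  | zero => exact fun _ h => h
  | succ n ih => exact fun x hx => ih (inner_subset _ hx)

/-- A boundary point inside a segment between points of `P`. -/
lemma Bd_seg {P : Finset (ℝ × ℝ)} {p q r : ℝ × ℝ} (hr : r ∈ Bd P) (hp : p ∈ P) (hq : q ∈ P)
    (h : r ∈ openSegment ℝ p q) : p ∈ Bd P := by
  obtain ⟨hrP, f, hf, hmin⟩ := mem_Bd_iff.1 hr
  obtain ⟨a, b, ha, hb, hab, rfl⟩ := h
  have h1 := hmin p hp
  have h2 := hmin q hq
  simp only [Prod.fst_add, Prod.snd_add, Prod.smul_fst, Prod.smul_snd, smul_eq_mul] at h1 h2 hmin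
  have hb' : b = 1 - a := by linarith
  subst hb'
  have h3 : f.1 * p.1 + f.2 * p.2 = f.1 * q.1 + f.2 * q.2 := by
    have e1 : (1 - a) * ((f.1 * p.1 + f.2 * p.2) - (f.1 * q.1 + f.2 * q.2)) ≥ 0 := by linarith
    have e2 : a * ((f.1 * q.1 + f.2 * q.2) - (f.1 * p.1 + f.2 * p.2)) ≥ 0 := by linarith
    have e3 : (f.1 * p.1 + f.2 * p.2) - (f.1 * q.1 + f.2 * q.2) ≥ 0 := by
      by_contra hc
      push Not at hc
      nlinarith [mul_neg_of_pos_of_neg hb hc]
    have e4 : (f.1 * q.1 + f.2 * q.2) - (f.1 * p.1 + f.2 * p.2) ≥ 0 := by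
      by_contra hc
      push Not at hc
      nlinarith [mul_neg_of_pos_of_neg ha hc]
    linarith
  refine mem_Bd_iff.2 ⟨hp, f, hf, fun r hr' => ?_⟩
  have := hmin r hr'
  nlinarith

lemma K5free_inner {P : Finset (ℝ × ℝ)} (h : K5free (P : Set (ℝ × ℝ))) :
    K5free (inner P : Set (ℝ × ℝ)) := by
  rintro ⟨f, hf, hs⟩
  refine h ⟨f, fun i => inner_subset P (hf i), fun i j hij => ⟨(hs i j hij).1, fun r hr hrs => ?_⟩⟩
  have hrB : r ∉ Bd P := fun hrB =>
    (mem_inner_iff.1 (hf i)).2 (Bd_seg hrB (inner_subset P (hf i)) (inner_subset P (hf j)) hrs)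
  exact (hs i j hij).2 r (mem_inner_iff.2 ⟨hr, hrB⟩) hrs

/-- A boundary point in the half-open sector of an inner edge lies strictly beyond it. -/
lemma beyond {P : Finset (ℝ × ℝ)} {p q z x : ℝ × ℝ} (hx : x ∈ Bd P) (hp : p ∈ inner P)
    (hq : q ∈ P) (hz : z ∈ P) (h1 : 0 ≤ ori z p x) (h2 : 0 < ori z x q) : ori p q x < 0 := by
  by_contra hc
  push Not at hc
  obtain ⟨hxP, f, hf, hmin⟩ := mem_Bd_iff.1 hx
  have hpP := (mem_inner_iff.1 hp).1
  have a1 := hmin p hpP
  have a2 := hmin q hq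
  have a3 := hmin z hz
  have key : ori p q x * ((f.1 * z.1 + f.2 * z.2) - (f.1 * x.1 + f.2 * x.2)) +
      ori z x q * ((f.1 * p.1 + f.2 * p.2) - (f.1 * x.1 + f.2 * x.2)) +
      ori z p x * ((f.1 * q.1 + f.2 * q.2) - (f.1 * x.1 + f.2 * x.2)) = 0 := by
    unfold ori; ring
  have b1 := mul_nonneg hc (sub_nonneg.2 a3)
  have b3 := mul_nonneg h1 (sub_nonneg.2 a2)
  have b2 := mul_nonneg h2.le (sub_nonneg.2 a1)
  have b4 : ori z x q * ((f.1 * p.1 + f.2 * p.2) - (f.1 * x.1 + f.2 * x.2)) = 0 := by linarith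
  have b5 : (f.1 * p.1 + f.2 * p.2) - (f.1 * x.1 + f.2 * x.2) = 0 := by
    rcases mul_eq_zero.1 b4 with h | h
    · exact absurd h h2.ne'
    · exact h
  refine (mem_inner_iff.1 hp).2 (mem_Bd_iff.2 ⟨hpP, f, hf, fun r hr => ?_⟩)
  have := hmin r hr
  linarith

/-- Two boundary points are never on the same ray from an interior point. -/
lemma ray {P : Finset (ℝ × ℝ)} {x y z : ℝ × ℝ} (hx : x ∈ Bd P) (hy : y ∈ Bd P) (hz : z ∈ P)
    (hzB : z ∉ Bd P) (h0 : ori z x y = 0) {q : ℝ × ℝ} (h1 : 0 < ori z x q) (h2 : 0 < ori z y q) :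
    x = y := by
  -- `(y - z) * ori z x q = (x - z) * ori z y q`
  have e1 : (y.1 - z.1) * ori z x q = (x.1 - z.1) * ori z y q := by
    unfold ori at *
    linear_combination (q.1 - z.1) * h0
  have e2 : (y.2 - z.2) * ori z x q = (x.2 - z.2) * ori z y q := by
    unfold ori at *
    linear_combination (q.2 - z.2) * h0
  by_contra hne
  have hxz : x ≠ z := by
    rintro rfl
    unfold ori at h1
    simp at h1
  obtain ⟨hxP, f, hf, hfm⟩ := mem_Bd_iff.1 hx
  obtain ⟨hyP, g, hg, hgm⟩ := mem_Bd_iff.1 hy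
  rcases lt_trichotomy (ori z x q) (ori z y q) with h | h | h
  · -- `x` between `z` and `y`
    have b1 := hfm y hyP
    have b2 := hfm z hz
    -- f(y) - f(z) = t (f(x) - f(z)), t > 1
    have b3 : ((f.1 * y.1 + f.2 * y.2) - (f.1 * z.1 + f.2 * z.2)) * ori z x q =
        ((f.1 * x.1 + f.2 * x.2) - (f.1 * z.1 + f.2 * z.2)) * ori z y q := by
      linear_combination f.1 * e1 + f.2 * e2
    have b4 : f.1 * x.1 + f.2 * x.2 = f.1 * z.1 + f.2 * z.2 := by
      by_contra hc
      have b5 : (f.1 * x.1 + f.2 * x.2) - (f.1 * z.1 + f.2 * z.2) < 0 := by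
        rcases lt_or_eq_of_le b2 with h' | h'
        · linarith
        · exact absurd h' hc
      have b6 : ((f.1 * y.1 + f.2 * y.2) - (f.1 * z.1 + f.2 * z.2)) * ori z x q ≥
          ((f.1 * x.1 + f.2 * x.2) - (f.1 * z.1 + f.2 * z.2)) * ori z x q := by
        apply mul_le_mul_of_nonneg_right _ h1.le
        linarith
      nlinarith [mul_pos_of_neg_of_neg b5 (sub_neg.2 h)]
    exact hzB (mem_Bd_iff.2 ⟨hz, f, hf, fun r hr => by have := hfm r hr; linarith⟩)
  · apply hne
    rw [h] at e1 e2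
    have c1 := mul_right_cancel₀ h2.ne' e1
    have c2 := mul_right_cancel₀ h2.ne' e2
    ext
    · linarith
    · linarith
  · have b1 := hgm x hxP
    have b2 := hgm z hz
    have b3 : ((g.1 * y.1 + g.2 * y.2) - (g.1 * z.1 + g.2 * z.2)) * ori z x q =
        ((g.1 * x.1 + g.2 * x.2) - (g.1 * z.1 + g.2 * z.2)) * ori z y q := by
      linear_combination g.1 * e1 + g.2 * e2
    have b4 : g.1 * y.1 + g.2 * y.2 = g.1 * z.1 + g.2 * z.2 := by
      by_contra hc
      have b5 : (g.1 * y.1 + g.2 * y.2) - (g.1 * z.1 + g.2 * z.2) < 0 := by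
        rcases lt_or_eq_of_le b2 with h' | h'
        · linarith
        · exact absurd h' hc
      have b6 : ((g.1 * x.1 + g.2 * x.2) - (g.1 * z.1 + g.2 * z.2)) * ori z y q ≥
          ((g.1 * y.1 + g.2 * y.2) - (g.1 * z.1 + g.2 * z.2)) * ori z y q := by
        apply mul_le_mul_of_nonneg_right _ h2.le
        linarith
      nlinarith [mul_pos_of_neg_of_neg b5 (sub_neg.2 h)]
    exact hzB (mem_Bd_iff.2 ⟨hz, g, hg, fun r hr => by have := hgm r hr; linarith⟩)

lemma ori_rot (p q z : ℝ × ℝ) : ori p q z = ori z p q := by unfold ori; ring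

/-- The pieces of part I used here. -/
structure Facts : Prop where
  col : ∀ (P : Finset (ℝ × ℝ)), ¬ NonCol P → ∀ p ∈ P, p ∈ Bd P
  emem : ∀ {P : Finset (ℝ × ℝ)} {p q : ℝ × ℝ}, Edge P p q → p ∈ Bd P ∧ q ∈ Bd P
  eex : ∀ (P : Finset (ℝ × ℝ)), NonCol P → ∀ (p : ℝ × ℝ), p ∈ Bd P → ∃ q, Edge P p q
  euniq : ∀ {P : Finset (ℝ × ℝ)}, NonCol P → ∀ {p q q' : ℝ × ℝ}, Edge P p q → Edge P p q' → q = q'
  eint : ∀ {P : Finset (ℝ × ℝ)} {z : ℝ × ℝ}, z ∈ P → z ∉ Bd P → ∀ {p q : ℝ × ℝ}, Edge P p q →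
    0 < ori p q z
  sector : ∀ (P : Finset (ℝ × ℝ)), NonCol P → ∀ (z : ℝ × ℝ),
    (∀ p q, Edge P p q → 0 < ori p q z) → ∀ (x : ℝ × ℝ), x ≠ z →
    ∃ p q, Edge P p q ∧ 0 ≤ ori z p x ∧ 0 < ori z x q
  succ : ∀ (P : Finset (ℝ × ℝ)) (z : ℝ × ℝ), z ∈ P →
    (∀ p q, Edge P p q → 0 < ori p q z) → ∀ (x y y' : ℝ × ℝ), y' ∈ Bd P →
    0 < ori z x y' → Edge P x y → 0 < ori z x y ∧ 0 ≤ ori z y y'
  pent : ∀ (P : Finset (ℝ × ℝ)), K5free (P : Set (ℝ × ℝ)) → ∀ (x y p q w : ℝ × ℝ),
    Edge P x y → Edge (inner P) p q → ori p q x < 0 → ori p q y < 0 →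
    w ∈ inner P → 0 < ori p q w → 0 < ori p x w → 0 < ori y q w → False

/-- Plücker relation in the plane. -/
lemma plucker (z a b c d : ℝ × ℝ) :
    ori z a b * ori z c d - ori z a c * ori z b d + ori z a d * ori z b c = 0 := by
  unfold ori; ring

/-- Alignment. -/
lemma align (F : Facts) {P : Finset (ℝ × ℝ)} (hK : K5free (P : Set (ℝ × ℝ)))
    {x y p q z : ℝ × ℝ} (hxy : Edge P x y) (hpq : Edge (inner P) p q)
    (hz : z ∈ inner (inner P)) (h1 : 0 ≤ ori z p x) (h2 : 0 < ori z x y) (h3 : 0 < ori z y q)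
    (h4 : 0 < ori z x q) : ori z p x = 0 ∧ ori p q x < 0 ∧ ori p q y < 0 ∧ 0 < ori z p q ∧
      0 < ori z p y := by
  have hz1 := (mem_inner_iff.1 hz).1
  have hzP := (mem_inner_iff.1 hz1).1
  have hpqz : 0 < ori p q z := F.eint hz1 (mem_inner_iff.1 hz).2 hpq
  have hpq' : 0 < ori z p q := by rw [← ori_rot]; exact hpqz
  have hpy : 0 < ori z p y := by
    have := plucker z p x y q
    by_contra hc
    push Not at hc
    nlinarith [mul_nonneg h1 h3.le, mul_pos hpq' h2, mul_nonneg (neg_nonneg.2 hc) h4.le]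
  have hxB := (F.emem hxy).1
  have hyB := (F.emem hxy).2
  have hqP : q ∈ P := inner_subset P hpq.hq
  have c1 : ori p q x < 0 := beyond hxB hpq.hp hqP hzP h1 h4
  have c2 : ori p q y < 0 := beyond hyB hpq.hp hqP hzP hpy.le h3
  refine ⟨?_, c1, c2, hpq', hpy⟩
  by_contra hne
  have h1' : 0 < ori z p x := lt_of_le_of_ne h1 (Ne.symm hne)
  refine F.pent P hK x y p q z hxy hpq c1 c2 hz1 hpqz ?_ ?_
  · rw [ori_rot]; exact h1'
  · rw [ori_rot]; exact h3

lemma chain_aux (F : Facts) (z : ℝ × ℝ) : ∀ (k : ℕ) (P : Finset (ℝ × ℝ)) (x y p q : ℝ × ℝ),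
    K5free (P : Set (ℝ × ℝ)) → Edge P x y → Edge (inner P) p q → z ∈ layer P (k + 2) →
    0 ≤ ori z p x → 0 < ori z x y → 0 < ori z y q → 0 < ori z x q →
    k ≤ (fil P (fun r => ori z x r = 0)).card := by
  intro k
  induction k with
  | zero => intros; exact Nat.zero_le _
  | succ k ih =>
    intro P x y p q hK hxy hpq hz h1 h2 h3 h4
    -- membership of `z`
    have hz3 : z ∈ layer (inner P) (k + 2) := by rw [layer_inner]; exact hz
    have hz3' : z ∈ layer (inner (inner P)) (k + 1) := by rw [layer_inner]; exact hz3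
    have hz3'' : z ∈ layer (inner (inner (inner P))) k := by rw [layer_inner]; exact hz3'
    have hzi3 : z ∈ inner (inner (inner P)) := layer_subset _ _ hz3''
    have hzi2 : z ∈ inner (inner P) := inner_subset _ hzi3
    have hzi2B : z ∉ Bd (inner (inner P)) := (mem_inner_iff.1 hzi3).2
    have hzi1 : z ∈ inner P := inner_subset _ hzi2
    have hzP : z ∈ P := inner_subset _ hzi1
    obtain ⟨hal, c1, c2, hpq', hpy⟩ := align F hK hxy hpq hzi2 h1 h2 h3 h4
    have hpqz : 0 < ori p q z := by rw [ori_rot]; exact hpq'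
    -- the edge of the next layer
    have hN : NonCol (inner (inner P)) := by
      by_contra hc
      exact hzi2B (F.col _ hc z hzi2)
    have hpz : p ≠ z := by
      rintro rfl
      unfold ori at hpq'
      simp at hpq'
    obtain ⟨p', q', he', g1, g2⟩ := F.sector _ hN z (fun a b hab => F.eint hzi2 hzi2B hab) p hpz
    -- `x - z` is a positive multiple of `p - z`
    -- (x - z) * ori z p q = (p - z) * ori z x q
    have e1 : (x.1 - z.1) * ori z p q = (p.1 - z.1) * ori z x q := by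
      unfold ori at *
      linear_combination (q.1 - z.1) * hal
    have e2 : (x.2 - z.2) * ori z p q = (p.2 - z.2) * ori z x q := by
      unfold ori at *
      linear_combination (q.2 - z.2) * hal
    have hq'P2 : q' ∈ inner (inner P) := he'.hq
    have hq'1 : q' ∈ inner P := inner_subset _ hq'P2
    have hlt : 0 < ori p q q' := F.eint hq'1 (mem_inner_iff.1 hq'P2).2 hpq
    -- `q'` is after `q`
    have hqq' : 0 < ori z q q' := by
      by_contra hc
      push Not at hc
      refine F.pent P hK x y p q q' hxy hpq c1 c2 hq'1 hlt ?_ ?_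
      · -- `0 < ori p x q'`
        -- ori z x q > ori z p q
        have k0 : ori p q x + ori z x q = ori z p q := by
          unfold ori at *
          linear_combination (-1 : ℝ) * hal
        have k1 : ori z p q < ori z x q := by linarith
        have k2 : ori p x q' * ori z p q = (ori z x q - ori z p q) * ori z p q' := by
          have : ori p x q' = ((x.1 - z.1) - (p.1 - z.1)) * (q'.2 - p.2) -
              ((x.2 - z.2) - (p.2 - z.2)) * (q'.1 - p.1) := by unfold ori; ring
          rw [this]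
          have : (((x.1 - z.1) - (p.1 - z.1)) * (q'.2 - p.2) -
              ((x.2 - z.2) - (p.2 - z.2)) * (q'.1 - p.1)) * ori z p q =
              (((x.1 - z.1) * ori z p q) - (p.1 - z.1) * ori z p q) * (q'.2 - p.2) -
              (((x.2 - z.2) * ori z p q) - (p.2 - z.2) * ori z p q) * (q'.1 - p.1) := by ring
          rw [this, e1, e2]
          have : ori z p q' = (p.1 - z.1) * (q'.2 - z.2) - (p.2 - z.2) * (q'.1 - z.1) := rfl
          rw [this]
          ring
        have k3 : 0 < (ori z x q - ori z p q) * ori z p q' := mul_pos (by linarith) g2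
        rw [← k2] at k3
        exact pos_of_mul_pos_left k3 hpq'.le
      · -- `0 < ori y q q'`
        have k1 : ori y q q' * ori z p q =
            ori p q q' * ori z y q + (-(ori z q q')) * (-(ori p q y)) := by
          unfold ori; ring
        have k2 : 0 < ori p q q' * ori z y q := mul_pos hlt h3
        have k3 : 0 ≤ (-(ori z q q')) * (-(ori p q y)) :=
          mul_nonneg (by linarith) (by linarith)
        have k4 : 0 < ori y q q' * ori z p q := by rw [k1]; linarith
        exact pos_of_mul_pos_left k4 hpq'.le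
    have hrec := ih (inner P) p q p' q' (K5free_inner hK) hpq he' hz3 g1 hpq' hqq' g2
    -- add the point `x`
    have hxB := (F.emem hxy).1
    have hxP := hxy.hp
    have hxin : x ∉ Pool.Agent.helper88.Vis.inner P := fun h => (mem_inner_iff.1 h).2 hxB
    classical
    have hsub : insert x (fil (inner P) (fun r => ori z p r = 0)) ⊆
        fil P (fun r => ori z x r = 0) := by
      intro r hr
      rcases Finset.mem_insert.1 hr with rfl | hr
      · exact mem_fil.2 ⟨hxP, by unfold ori; ring⟩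
      · obtain ⟨r1, r2⟩ := mem_fil.1 hr
        refine mem_fil.2 ⟨inner_subset _ r1, ?_⟩
        have k1 : ori z x r * ori z p q = ori z p r * ori z x q := by
          have : ori z x r * ori z p q = ((x.1 - z.1) * ori z p q) * (r.2 - z.2) -
              ((x.2 - z.2) * ori z p q) * (r.1 - z.1) := by unfold ori; ring
          rw [this, e1, e2]
          have : ori z p r = (p.1 - z.1) * (r.2 - z.2) - (p.2 - z.2) * (r.1 - z.1) := rfl
          rw [this]
          ring
        rw [r2, zero_mul] at k1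
        rcases mul_eq_zero.1 k1 with h | h
        · exact h
        · exact absurd h hpq'.ne'
    have hcard := Finset.card_le_card hsub
    rw [Finset.card_insert_of_notMem (fun h => hxin (fil_subset _ _ h))] at hcard
    omega

/-- Module I-E. -/
theorem chain_collinear_of (F : Facts) (P : Finset (ℝ × ℝ)) (hK : K5free (P : Set (ℝ × ℝ)))
    (ℓ : ℕ) (h1 : (Bd (inner P)).card < (Bd P).card) (h2 : (layer P (ℓ + 2)).Nonempty) :
    ∃ c d : ℝ × ℝ, d ≠ 0 ∧ ℓ ≤ (fil P (fun p => sd c d p = 0)).card := by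
  obtain ⟨z, hz⟩ := h2
  have hzl : z ∈ layer (inner (inner P)) ℓ := by
    rw [layer_inner, layer_inner]; exact hz
  have hzi2 : z ∈ inner (inner P) := layer_subset _ _ hzl
  have hzi1 : z ∈ inner P := inner_subset _ hzi2
  have hzi1B : z ∉ Bd (inner P) := (mem_inner_iff.1 hzi2).2
  have hzP : z ∈ P := inner_subset _ hzi1
  have hzB : z ∉ Bd P := (mem_inner_iff.1 hzi1).2
  have hN : NonCol (inner P) := by
    by_contra hc
    exact hzi1B (F.col _ hc z hzi1)
  have hNP : NonCol P := by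
    by_contra hc
    exact hzB (F.col _ hc z hzP)
  have hsec : ∀ x : ℝ × ℝ, x ∈ Bd P → ∃ p q, Edge (inner P) p q ∧ 0 ≤ ori z p x ∧
      0 < ori z x q := fun x hx =>
    F.sector _ hN z (fun a b hab => F.eint hzi1 hzi1B hab) x (fun h => hzB (h ▸ hx))
  choose! p q hpq hp hq using hsec
  obtain ⟨x, hx, y, hy, hne, hxy⟩ := Finset.exists_ne_map_eq_of_card_lt_of_maps_to h1
    (fun x hx => (F.emem (hpq x hx)).1)
  -- same edge
  have hqq : q x = q y := by
    have := hpq y hy
    rw [← hxy] at this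
    exact F.euniq hN (hpq x hx) this
  -- wlog `x` before `y`
  have main : ∀ x y : ℝ × ℝ, x ∈ Bd P → y ∈ Bd P → p x = p y → q x = q y → 0 < ori z x y →
      ∃ c d : ℝ × ℝ, d ≠ 0 ∧ ℓ ≤ (fil P (fun p => sd c d p = 0)).card := by
    intro x y' hx hy' hpp hqq hlt
    obtain ⟨y, he⟩ := F.eex P hNP x hx
    obtain ⟨s1, s2⟩ := F.succ P z hzP (fun a b hab => F.eint hzP hzB hab) x y y' hy' hlt he
    have hyq : 0 < ori z y (q x) := by
      have t1 : 0 < ori z y' (q x) := by rw [hqq]; exact hq y' hy'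
      have t2 : 0 < ori z x (q x) := hq x hx
      have := plucker z x y y' (q x)
      by_contra hc
      push Not at hc
      nlinarith [mul_pos s1 t1, mul_nonneg t2.le s2, mul_nonneg hlt.le (neg_nonneg.2 hc)]
    have := chain_aux F z ℓ P x y (p x) (q x) hK he (hpq x hx) hz (hp x hx) s1 hyq (hq x hx)
    refine ⟨z, (x.1 - z.1, x.2 - z.2), ?_, ?_⟩
    · intro h0
      have h01 : x.1 - z.1 = 0 := congrArg Prod.fst h0
      have h02 : x.2 - z.2 = 0 := congrArg Prod.snd h0
      apply hzB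
      have : x = z := by
        ext
        · linarith
        · linarith
      rw [← this]; exact hx
    · exact this
  rcases lt_trichotomy (ori z x y) 0 with h | h | h
  · refine main y x hy hx hxy.symm hqq.symm ?_
    have : ori z y x = - ori z x y := by unfold ori; ring
    linarith
  · exact absurd (ray hx hy hzP hzB h (hq x hx) (by rw [hqq]; exact hq y hy)) hne
  · exact main x y hx hy hxy hqq h

end Pool.Agent.helper40.Vis
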