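import Pool.Agent.helper40.Vis.RowMono

set_option autoImplicit false

/-! MP_6b3417_co, part II, module P3a: `noEmptyTrap`. -/

namespace Pool.Agent.helper40.Vis

open Pool.Agent.helper47.Vis

/-- oriented area functional, vanishing at `a` and `b`. -/
def dl (s : ℝ) (a b r : ℝ × ℝ) : ℝ :=
  s * ((b.1 - a.1) * (r.2 - a.2) - (b.2 - a.2) * (r.1 - a.1))

lemma dl_swap (s : ℝ) (a b r : ℝ × ℝ) : dl (-s) b a r = dl s a b r := by
  unfold dl; ring

lemma dl_left (s : ℝ) (a b : ℝ × ℝ) : dl s a b a = 0 := by unfold dl; ring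
lemma dl_right (s : ℝ) (a b : ℝ × ℝ) : dl s a b b = 0 := by unfold dl; ring

lemma dl_comb (s : ℝ) (a b p q r : ℝ × ℝ) (t : ℝ) (h1 : r.1 = (1 - t) * p.1 + t * q.1)
    (h2 : r.2 = (1 - t) * p.2 + t * q.2) :
    dl s a b r = (1 - t) * dl s a b p + t * dl s a b q := by
  unfold dl; rw [h1, h2]; ring

/-- a point of the open segment `z a'` on the non-positive side of the line `a b` is in the
triangle `a b a'`. -/
lemma mem_triangle (D : Set (ℝ × ℝ)) (hD : Convex ℝ D) (s : ℝ) (a b a' z r : ℝ × ℝ) (ζ t : ℝ)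
    (ha : a ∈ D) (hb : b ∈ D) (ha' : a' ∈ D) (h1 : a'.2 = a.2) (hab : a.2 ≠ b.2)
    (hζ0 : 0 < ζ) (hζ1 : ζ < 1) (hz : z.2 = a.2 + ζ * (b.2 - a.2))
    (ht0 : 0 < t) (ht1 : t < 1) (hr1 : r.1 = (1 - t) * z.1 + t * a'.1)
    (hr2 : r.2 = (1 - t) * z.2 + t * a'.2) (hδz : 0 < dl s a b z) (hδa : dl s a b a' < 0)
    (hδr : dl s a b r ≤ 0) : r ∈ D := by
  have hs : s ≠ 0 := by
    rintro rfl
    unfold dl at hδz
    simp at hδz
  have hcomb := dl_comb s a b z a' r t hr1 hr2
  set γ : ℝ := dl s a b r / dl s a b a' with hγ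
  have hγ0 : 0 ≤ γ := div_nonneg_of_nonpos hδr hδa.le
  have hγt : γ < t := by
    rw [hγ, div_lt_iff_of_neg hδa, hcomb]
    nlinarith
  have hγr : dl s a b r = γ * dl s a b a' := by
    rw [hγ, div_mul_cancel₀ _ hδa.ne]
  set β : ℝ := (1 - t) * ζ with hβ
  have hβ0 : 0 < β := mul_pos (by linarith) hζ0
  have hβt : β < 1 - t := by rw [hβ]; nlinarith
  have hβr : r.2 - a.2 = β * (b.2 - a.2) := by rw [hr2, hz, h1, hβ]; ring
  have hr1' : r.1 = a.1 + β * (b.1 - a.1) + γ * (a'.1 - a.1) := by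
    unfold dl at hγr
    rw [hβr, h1] at hγr
    have h2 : s * (b.2 - a.2) * (a.1 + β * (b.1 - a.1) + γ * (a'.1 - a.1) - r.1) = 0 := by
      linear_combination hγr
    have h3 : s * (b.2 - a.2) ≠ 0 := mul_ne_zero hs (sub_ne_zero.mpr hab.symm)
    rcases mul_eq_zero.mp h2 with h4 | h4
    · exact absurd h4 h3
    · linarith
  have hγ1 : 1 - γ ≠ 0 := by linarith
  have hγ1' : 0 < 1 - γ := by linarith
  set m : ℝ × ℝ := ((1 - γ - β) / (1 - γ)) • a + (β / (1 - γ)) • b with hm
  have hmD : m ∈ D := by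
    apply hD ha hb
    · apply div_nonneg <;> linarith
    · apply div_nonneg <;> linarith
    · field_simp
      ring
  have hrm : r = (1 - γ) • m + γ • a' := by
    ext
    · simp only [hm, Prod.fst_add, Prod.smul_fst, smul_eq_mul]
      rw [hr1']
      field_simp
      ring
    · simp only [hm, Prod.snd_add, Prod.smul_snd, smul_eq_mul]
      have : r.2 = a.2 + β * (b.2 - a.2) := by linarith
      rw [this, h1]
      field_simp
      ring
  rw [hrm]
  exact hD hmD ha' hγ1'.le hγ0 (by ring)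

/-- the core: the empty trapezoid `a a' b b'`, a point on the positive side of the line `a b`. -/
lemma core (V : Set (ℝ × ℝ)) (hfin : V.Finite) (hK : K5free V) (a a' b b' z : ℝ × ℝ) (s : ℝ)
    (ha : a ∈ V) (ha' : a' ∈ V) (hb : b ∈ V) (hb' : b' ∈ V) (hz : z ∈ V)
    (h1 : a'.2 = a.2) (h2 : b'.2 = b.2) (h3 : a.1 ≠ a'.1) (h4 : b.1 ≠ b'.1)
    (h5 : a.2 < z.2) (h6 : z.2 < b.2) (hδz : 0 < dl s a b z) (hδa : dl s a b a' < 0)
    (hδb : dl s a b b' < 0)
    (hempty : ∀ r ∈ V, r ∈ convexHull ℝ ({a, a', b, b'} : Set (ℝ × ℝ)) →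
      r = a ∨ r = a' ∨ r = b ∨ r = b') : False := by
  set D := convexHull ℝ ({a, a', b, b'} : Set (ℝ × ℝ)) with hDdef
  have hD : Convex ℝ D := convex_convexHull ℝ _
  have hsub := subset_convexHull ℝ ({a, a', b, b'} : Set (ℝ × ℝ))
  have haD : a ∈ D := hsub (by simp)
  have haD' : a' ∈ D := hsub (by simp)
  have hbD : b ∈ D := hsub (by simp)
  have hbD' : b' ∈ D := hsub (by simp)
  -- heights of points of V ∩ D
  have hheight : ∀ r ∈ V, r ∈ D → r.2 = a.2 ∨ r.2 = b.2 := by
    intro r hr hrD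
    rcases hempty r hr hrD with rfl | rfl | rfl | rfl
    · exact Or.inl rfl
    · exact Or.inl h1
    · exact Or.inr rfl
    · exact Or.inr h2
  -- minimal z
  obtain ⟨z₀, ⟨hz₀V, hz₀1, hz₀2, hz₀3⟩, hmin⟩ := Set.exists_min_image
    {r | r ∈ V ∧ a.2 < r.2 ∧ r.2 < b.2 ∧ 0 < dl s a b r} (fun r => dl s a b r)
    (hfin.subset (fun r hr => hr.1)) ⟨z, hz, h5, h6, hδz⟩
  have hmin' : ∀ r ∈ V, a.2 < r.2 → r.2 < b.2 → dl s a b r < dl s a b z₀ → dl s a b r ≤ 0 := by
    intro r hr hr1 hr2 hr3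
    by_contra hcon
    push Not at hcon
    have := hmin r ⟨hr, hr1, hr2, hcon⟩
    linarith
  have hab : a.2 < b.2 := by linarith
  set ζ : ℝ := (z₀.2 - a.2) / (b.2 - a.2) with hζ
  have hζe : ζ * (b.2 - a.2) = z₀.2 - a.2 := div_mul_cancel₀ _ (by linarith)
  have hζ0 : 0 < ζ := div_pos (by linarith) (by linarith)
  have hζ1 : ζ < 1 := by rw [hζ, div_lt_one (by linarith)]; linarith
  -- z₀ sees a corner c
  have see : ∀ c : ℝ × ℝ, (c = a ∨ c = a' ∨ c = b ∨ c = b') → Sees V z₀ c := by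
    intro c hc
    have hcle : dl s a b c ≤ 0 := by
      rcases hc with rfl | rfl | rfl | rfl
      · rw [dl_left]
      · exact hδa.le
      · rw [dl_right]
      · exact hδb.le
    refine ⟨?_, fun r hr hseg => ?_⟩
    · rintro rfl
      linarith
    · obtain ⟨t, ht0, ht1, hr1, hr2⟩ := seg_param hseg
      have hcomb := dl_comb s a b z₀ c r t hr1 hr2
      have hlt : dl s a b r < dl s a b z₀ := by rw [hcomb]; nlinarith
      have hheight2 : a.2 < r.2 ∧ r.2 < b.2 := by
        rw [hr2]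
        rcases hc with rfl | rfl | rfl | rfl
        · constructor <;> nlinarith
        · rw [h1]; constructor <;> nlinarith
        · constructor <;> nlinarith
        · rw [h2]; constructor <;> nlinarith
      have hle := hmin' r hr hheight2.1 hheight2.2 hlt
      have hrD : r ∈ D := by
        rcases hc with rfl | rfl | rfl | rfl
        · rw [dl_left] at hcomb
          nlinarith
        · exact mem_triangle D hD s a b _ z₀ r ζ t haD hbD haD' h1 hab.ne hζ0 hζ1 (by linarith)
            ht0 ht1 hr1 hr2 hz₀3 hδa hle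
        · rw [dl_right] at hcomb
          nlinarith
        · refine mem_triangle D hD (-s) b a _ z₀ r (1 - ζ) t hbD haD hbD' h2 hab.ne' (by linarith)
            (by linarith) (by linear_combination -hζe) ht0 ht1 hr1 hr2 ?_ ?_ ?_
          · rw [dl_swap]; exact hz₀3
          · rw [dl_swap]; exact hδb
          · rw [dl_swap]; exact hle
      rcases hheight r hr hrD with h | h <;> linarith [hheight2.1, hheight2.2]
  -- corners at the same height see each other
  have seeH : ∀ c c' : ℝ × ℝ, c ∈ D → c' ∈ D → c.2 = c'.2 → c.1 ≠ c'.1 →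
      (∀ r ∈ V, r ∈ D → r.2 = c.2 → r = c ∨ r = c') → Sees V c c' := by
    intro c c' hc hc' hcc hne hall
    refine ⟨fun h => hne (by rw [h]), fun r hr hseg => ?_⟩
    have hrD : r ∈ D := hD.openSegment_subset hc hc' hseg
    obtain ⟨t, ht0, ht1, hr1, hr2⟩ := seg_param hseg
    have hrh : r.2 = c.2 := by rw [hr2, ← hcc]; ring
    rcases hall r hr hrD hrh with rfl | rfl
    · have : t * (c'.1 - r.1) = 0 := by linear_combination -hr1
      rcases mul_eq_zero.mp this with h | h
      · linarith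
      · exact hne (by linarith)
    · have : (1 - t) * (r.1 - c.1) = 0 := by linear_combination hr1
      rcases mul_eq_zero.mp this with h | h
      · linarith
      · exact hne (by linarith)
  have seeD : ∀ c c' : ℝ × ℝ, c ∈ D → c' ∈ D → c.2 = a.2 → c'.2 = b.2 → Sees V c c' := by
    intro c c' hc hc' hca hcb
    refine ⟨fun h => by rw [h, hcb] at hca; linarith, fun r hr hseg => ?_⟩
    have hrD : r ∈ D := hD.openSegment_subset hc hc' hseg
    obtain ⟨t, ht0, ht1, hr1, hr2⟩ := seg_param hseg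
    rw [hca, hcb] at hr2
    have e1 : a.2 < r.2 := by rw [hr2]; nlinarith
    have e2 : r.2 < b.2 := by rw [hr2]; nlinarith
    rcases hheight r hr hrD with h | h <;> linarith
  have sa : Sees V a a' := by
    apply seeH a a' haD haD' h1.symm h3
    intro r hr hrD hra
    rcases hempty r hr hrD with h | h | h | h
    · exact Or.inl h
    · exact Or.inr h
    · rw [h] at hra; linarith
    · rw [h, h2] at hra; linarith
  have sb : Sees V b b' := by
    apply seeH b b' hbD hbD' h2.symm h4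
    intro r hr hrD hra
    rcases hempty r hr hrD with h | h | h | h
    · rw [h] at hra; linarith
    · rw [h, h1] at hra; linarith
    · exact Or.inl h
    · exact Or.inr h
  exact K5free.elim5 hK hz₀V ha ha' hb hb' (see a (by simp)) (see a' (by simp)) (see b (by simp))
    (see b' (by simp)) sa (seeD a b haD hbD rfl rfl) (seeD a b' haD hbD' rfl h2)
    (seeD a' b haD' hbD h1 rfl) (seeD a' b' haD' hbD' h1 h2) sb

theorem noEmptyTrap (V : Set (ℝ × ℝ)) (hfin : V.Finite) (hK : K5free V) (p p' q q' z : ℝ × ℝ)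
    (hp : p ∈ V) (hp' : p' ∈ V) (hq : q ∈ V) (hq' : q' ∈ V) (hz : z ∈ V)
    (h1 : p.2 = p'.2) (h2 : q.2 = q'.2) (h3 : p.1 < p'.1) (h4 : q.1 < q'.1)
    (h5 : p.2 < z.2) (h6 : z.2 < q.2)
    (hempty : ∀ r ∈ V, r ∈ convexHull ℝ ({p, p', q, q'} : Set (ℝ × ℝ)) →
      r = p ∨ r = p' ∨ r = q ∨ r = q') : False := by
  have hpq : 0 < q.2 - p.2 := by linarith
  by_cases hL : 0 < dl 1 p q z
  · refine core V hfin hK p p' q q' z 1 hp hp' hq hq' hz h1.symm h2.symm h3.ne h4.ne h5 h6 hL ?_ ?_
      hempty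
    · unfold dl
      rw [← h1]
      nlinarith
    · unfold dl
      rw [← h2]
      nlinarith
  by_cases hR : 0 < dl (-1) p' q' z
  · refine core V hfin hK p' p q' q z (-1) hp' hp hq' hq hz h1 h2 h3.ne' h4.ne' (by linarith)
      (by linarith) hR ?_ ?_ ?_
    · unfold dl
      rw [h1, ← h2, ← h1]
      nlinarith
    · unfold dl
      rw [← h2, ← h1]
      nlinarith
    · intro r hr hrD
      have : ({p', p, q', q} : Set (ℝ × ℝ)) = {p, p', q, q'} := by
        ext w
        simp only [Set.mem_insert_iff, Set.mem_singleton_iff]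
        tauto
      rw [this] at hrD
      rcases hempty r hr hrD with h | h | h | h
      · exact Or.inr (Or.inl h)
      · exact Or.inl h
      · exact Or.inr (Or.inr (Or.inr h))
      · exact Or.inr (Or.inr (Or.inl h))
  -- now `z` is in the trapezoid
  exfalso
  push Not at hL hR
  set D := convexHull ℝ ({p, p', q, q'} : Set (ℝ × ℝ)) with hDdef
  have hD : Convex ℝ D := convex_convexHull ℝ _
  have hsub := subset_convexHull ℝ ({p, p', q, q'} : Set (ℝ × ℝ))
  have hpD : p ∈ D := hsub (by simp)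
  have hpD' : p' ∈ D := hsub (by simp)
  have hqD : q ∈ D := hsub (by simp)
  have hqD' : q' ∈ D := hsub (by simp)
  set μ : ℝ := (z.2 - p.2) / (q.2 - p.2) with hμ
  have hμe : μ * (q.2 - p.2) = z.2 - p.2 := div_mul_cancel₀ _ (by linarith)
  have hμ0 : 0 < μ := div_pos (by linarith) (by linarith)
  have hμ1 : μ < 1 := by rw [hμ, div_lt_one (by linarith)]; linarith
  -- left and right points at the height of `z`
  set lo : ℝ × ℝ := (1 - μ) • p + μ • q with hlo
  set hi : ℝ × ℝ := (1 - μ) • p' + μ • q' with hhi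
  have hloD : lo ∈ D := hD hpD hqD (by linarith) hμ0.le (by ring)
  have hhiD : hi ∈ D := hD hpD' hqD' (by linarith) hμ0.le (by ring)
  have hlo1 : lo.1 = (1 - μ) * p.1 + μ * q.1 := by simp [hlo]
  have hhi1 : hi.1 = (1 - μ) * p'.1 + μ * q'.1 := by simp [hhi]
  have hlo2 : lo.2 = z.2 := by
    have : lo.2 = (1 - μ) * p.2 + μ * q.2 := by simp [hlo]
    rw [this]; linear_combination hμe
  have hhi2 : hi.2 = z.2 := by
    have : hi.2 = (1 - μ) * p'.2 + μ * q'.2 := by simp [hhi]
    rw [this, ← h1, ← h2]; linear_combination hμe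
  have hzl : lo.1 ≤ z.1 := by
    unfold dl at hL
    rw [← hμe] at hL
    have : (q.2 - p.2) * (μ * (q.1 - p.1) - (z.1 - p.1)) ≤ 0 := by linarith
    have : μ * (q.1 - p.1) - (z.1 - p.1) ≤ 0 := by
      by_contra hcon
      push Not at hcon
      have := mul_pos hpq hcon
      linarith
    rw [hlo1]; linarith
  have hzh : z.1 ≤ hi.1 := by
    unfold dl at hR
    rw [← h1, ← h2, ← hμe] at hR
    have : 0 ≤ (q.2 - p.2) * (μ * (q'.1 - p'.1) - (z.1 - p'.1)) := by linarith
    have : 0 ≤ μ * (q'.1 - p'.1) - (z.1 - p'.1) := by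
      by_contra hcon
      push Not at hcon
      have := mul_neg_of_pos_of_neg hpq hcon
      linarith
    rw [hhi1]; linarith
  have hlh : lo.1 < hi.1 := by rw [hlo1, hhi1]; nlinarith
  have hzD : z ∈ D := by
    set θ : ℝ := (z.1 - lo.1) / (hi.1 - lo.1) with hθ
    have hθe : θ * (hi.1 - lo.1) = z.1 - lo.1 := div_mul_cancel₀ _ (by linarith)
    have hθ0 : 0 ≤ θ := div_nonneg (by linarith) (by linarith)
    have hθ1 : θ ≤ 1 := by rw [hθ, div_le_one (by linarith)]; linarith
    have hz' : z = (1 - θ) • lo + θ • hi := by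
      ext
      · simp only [Prod.fst_add, Prod.smul_fst, smul_eq_mul]
        linear_combination -hθe
      · simp only [Prod.snd_add, Prod.smul_snd, smul_eq_mul]
        rw [hlo2, hhi2]; ring
    rw [hz']
    exact hD hloD hhiD (by linarith) hθ0 (by ring)
  rcases hempty z hz hzD with h | h | h | h
  · rw [h] at h5; exact lt_irrefl _ h5
  · rw [h, ← h1] at h5; exact lt_irrefl _ h5
  · rw [h] at h6; exact lt_irrefl _ h6
  · rw [h, ← h2] at h6; exact lt_irrefl _ h6

end Pool.Agent.helper40.Vis
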